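import Mathlib

set_option autoImplicit false
set_option linter.unusedSectionVars false

open Module Submodule Finset

namespace Pool.Agent.H313RC

variable {F V : Type} [Field F] [Fintype F] [AddCommGroup V] [Module F V] [Fintype V]

noncomputable local instance : DecidableEq V := Classical.decEq V
noncomputable local instance instFS : Fintype (Submodule F V) :=
  Fintype.ofInjective (fun C : Submodule F V => (C : Set V)) SetLike.coe_injective

open Classical in
/-- tuples in `C` that extend `U` independently -/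
noncomputable def T (U C : Submodule F V) (m : ℕ) : Finset (Fin m → V) :=
  univ.filter fun v => (∀ i, v i ∈ C) ∧
    finrank F (U ⊔ span F (Set.range v) : Submodule F V) = finrank F U + m

lemma mem_T {U C : Submodule F V} {m : ℕ} {v : Fin m → V} :
    v ∈ T U C m ↔ (∀ i, v i ∈ C) ∧
      finrank F (U ⊔ span F (Set.range v) : Submodule F V) = finrank F U + m := by
  simp [T]

instance : FiniteDimensional F V := Module.Finite.of_finite

lemma finrank_sup_singleton {S : Submodule F V} {x : V} (hx : x ∉ S) :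
    finrank F (S ⊔ span F {x} : Submodule F V) = finrank F S + 1 := by
  have hx0 : x ≠ 0 := fun h => hx (h ▸ S.zero_mem)
  have h := Submodule.finrank_sup_add_finrank_inf_eq S (span F {x})
  have h2 : S ⊓ span F {x} = ⊥ := by
    rw [← disjoint_iff]
    exact (Submodule.disjoint_span_singleton' hx0).2 hx
  rw [h2, finrank_bot, finrank_span_singleton hx0] at h
  omega

lemma finrank_sup_le (S : Submodule F V) (x : V) :
    finrank F (S ⊔ span F {x} : Submodule F V) ≤ finrank F S + 1 := by
  by_cases hx : x ∈ S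
  · have : S ⊔ span F {x} = S := by
      rw [sup_eq_left, span_singleton_le_iff_mem]; exact hx
    rw [this]; omega
  · rw [finrank_sup_singleton hx]

lemma sup_cons {m : ℕ} (U : Submodule F V) (x : V) (v : Fin m → V) :
    U ⊔ span F (Set.range (Fin.cons x v : Fin (m + 1) → V)) =
      (U ⊔ span F (Set.range v)) ⊔ span F {x} := by
  rw [Fin.range_cons, Set.insert_eq, span_union, sup_assoc, sup_comm (span F {x})]

lemma finrank_le_T {m : ℕ} (U : Submodule F V) (v : Fin m → V) :
    finrank F (U ⊔ span F (Set.range v) : Submodule F V) ≤ finrank F U + m := by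
  have h1 := Submodule.finrank_add_le_finrank_add_finrank U (span F (Set.range v))
  have h2 := finrank_range_le_card (R := F) (b := v)
  rw [Set.finrank, Fintype.card_fin] at h2
  omega

lemma card_sub (C : Submodule F V) : Nat.card C = Fintype.card F ^ finrank F C := by
  classical
  have : Fintype C := Fintype.ofFinite C
  rw [Nat.card_eq_fintype_card, Module.card_eq_pow_finrank (K := F)]

open Classical in
lemma card_filter_mem (C : Submodule F V) :
    (univ.filter fun x : V => x ∈ C).card = Fintype.card F ^ finrank F C := by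
  rw [← card_sub, Nat.card_eq_fintype_card, Fintype.card_subtype]

open Classical in
lemma card_T (U C : Submodule F V) (hUC : U ≤ C) (m : ℕ) :
    (T U C m).card = ∏ i ∈ range m, (Fintype.card F ^ finrank F C - Fintype.card F ^ (finrank F U + i)) := by
  induction m with
  | zero =>
    rw [prod_range_zero, card_eq_one]
    refine ⟨Fin.elim0, ?_⟩
    ext v
    rw [mem_T, mem_singleton]
    constructor
    · intro _; exact Subsingleton.elim _ _
    · rintro rfl
      refine ⟨fun i => i.elim0, ?_⟩
      rw [Set.range_eq_empty, span_empty, sup_bot_eq, Nat.add_zero]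
  | succ m ih =>
    rw [prod_range_succ, ← ih]
    have h : (T U C (m + 1)).card = ((T U C m).sigma fun v => univ.filter fun x : V =>
        x ∈ C ∧ x ∉ U ⊔ span F (Set.range v)).card := by
      symm
      apply card_bij (fun (p : Σ _ : Fin m → V, V) _ => (Fin.cons p.2 p.1 : Fin (m + 1) → V))
      · rintro ⟨v, x⟩ hp
        rw [mem_sigma, mem_filter, mem_T] at hp
        obtain ⟨⟨h1, h2⟩, _, h3, h4⟩ := hp
        rw [mem_T]
        constructor
        · intro i
          refine Fin.cases ?_ ?_ i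
          · simpa using h3
          · intro i; simpa using h1 i
        · dsimp only
          rw [sup_cons, finrank_sup_singleton h4]
          dsimp only at h2
          rw [h2]; ring
      · rintro ⟨v, x⟩ _ ⟨v', x'⟩ _ h
        have := Fin.cons_injective2 h
        obtain ⟨rfl, rfl⟩ := this
        rfl
      · intro v hv
        refine ⟨⟨Fin.tail v, v 0⟩, ?_, Fin.cons_self_tail v⟩
        rw [mem_T, ← Fin.cons_self_tail v] at hv
        rw [mem_sigma, mem_filter, mem_T]
        obtain ⟨h1, h2⟩ := hv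
        rw [sup_cons] at h2
        have hle := finrank_le_T U (Fin.tail v)
        have hle2 := finrank_sup_le (U ⊔ span F (Set.range (Fin.tail v))) (v 0)
        have h1' : ∀ i, v i ∈ C := by
          intro i; have := h1 i; rwa [Fin.cons_self_tail] at this
        refine ⟨⟨fun i => h1' _, by dsimp only; omega⟩, mem_univ _, h1' 0, ?_⟩
        intro h3
        have : (U ⊔ span F (Set.range (Fin.tail v))) ⊔ span F {v 0} = U ⊔ span F (Set.range (Fin.tail v)) := by
          rw [sup_eq_left, span_singleton_le_iff_mem]; exact h3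
        rw [this] at h2
        omega
    rw [h, card_sigma, sum_const_nat (m := Fintype.card F ^ finrank F C - Fintype.card F ^ (finrank F U + m))]
    intro v hv
    rw [mem_T] at hv
    have hsub : U ⊔ span F (Set.range v) ≤ C := sup_le hUC (span_le.2 (by rintro _ ⟨i, rfl⟩; exact hv.1 i))
    have h1 : (univ.filter fun x : V => x ∈ C ∧ x ∉ U ⊔ span F (Set.range v)) =
        (univ.filter fun x : V => x ∈ C) \ (univ.filter fun x : V => x ∈ U ⊔ span F (Set.range v)) := by
      ext x; simp
    rw [h1, card_sdiff_of_subset, card_filter_mem, card_filter_mem, hv.2]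
    intro x hx
    rw [mem_filter] at hx ⊢
    exact ⟨mem_univ _, hsub hx.2⟩

open Classical in
/-- the `k`-dimensional subspaces containing `U` -/
noncomputable def A (U : Submodule F V) (k : ℕ) : Finset (Submodule F V) :=
  univ.filter fun C => finrank F C = k ∧ U ≤ C

lemma mem_A {U C : Submodule F V} {k : ℕ} : C ∈ A U k ↔ finrank F C = k ∧ U ≤ C := by
  simp [A]

lemma card_A (U : Submodule F V) (k : ℕ) (hk : finrank F U ≤ k) :
    (A U k).card * ∏ i ∈ range (k - finrank F U), (Fintype.card F ^ k - Fintype.card F ^ (finrank F U + i)) =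
      ∏ i ∈ range (k - finrank F U), (Fintype.card F ^ finrank F V - Fintype.card F ^ (finrank F U + i)) := by
  classical
  have h0 := card_T U (⊤ : Submodule F V) le_top (k - finrank F U)
  rw [finrank_top] at h0
  rw [← h0]
  have hmap : ∀ v ∈ T U (⊤ : Submodule F V) (k - finrank F U), (U ⊔ span F (Set.range v) : Submodule F V) ∈ A U k := by
    intro v hv
    rw [mem_T] at hv
    rw [mem_A, hv.2]
    exact ⟨by omega, le_sup_left⟩
  rw [card_eq_sum_card_fiberwise hmap]
  rw [sum_const_nat (m := ∏ i ∈ range (k - finrank F U), (Fintype.card F ^ k - Fintype.card F ^ (finrank F U + i)))]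
  intro C hC
  rw [mem_A] at hC
  rw [← hC.1, ← card_T U C hC.2]
  congr 1
  ext v
  rw [mem_filter, mem_T, mem_T]
  constructor
  · rintro ⟨⟨_, h1⟩, h2⟩
    refine ⟨fun i => ?_, h1⟩
    rw [← h2]
    exact mem_sup_right (subset_span ⟨i, rfl⟩)
  · rintro ⟨h1, h2⟩
    refine ⟨⟨fun i => mem_top, h2⟩, ?_⟩
    apply Submodule.eq_of_le_of_finrank_eq
    · exact sup_le hC.2 (span_le.2 (by rintro _ ⟨i, rfl⟩; exact h1 i))
    · rw [h2, hC.1]; omega


lemma one_lt_q : 1 < Fintype.card F := Fintype.one_lt_card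

lemma pow_sub_pos {a b : ℕ} (h : b < a) : 0 < Fintype.card F ^ a - Fintype.card F ^ b :=
  Nat.sub_pos_of_lt (Nat.pow_lt_pow_right (one_lt_q (F := F)) h)

theorem A_le (U : Submodule F V) (k : ℕ) (hUk : finrank F U ≤ k) (hkn : k ≤ finrank F V) :
    (A U k).card * Fintype.card F ^ (finrank F U * (finrank F V - k)) ≤
      (A (⊥ : Submodule F V) k).card := by
  have h1 := card_A U k hUk
  have h2 := card_A (⊥ : Submodule F V) k (by rw [finrank_bot]; omega)
  rw [finrank_bot] at h2
  simp only [Nat.sub_zero, Nat.zero_add] at h2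
  set q := Fintype.card F with hq
  set j := finrank F U with hj
  set n := finrank F V with hn
  obtain ⟨m, hm⟩ : ∃ m, k = j + m := ⟨k - j, by omega⟩
  have hkj : k - j = m := by omega
  rw [hkj] at h1
  have e1 : ∏ i ∈ range k, (q ^ k - q ^ i) = (∏ i ∈ range j, (q ^ k - q ^ i)) * ∏ i ∈ range m, (q ^ k - q ^ (j + i)) := by
    conv_lhs => rw [show range k = range (j + m) by rw [← hm]]
    rw [prod_range_add]
  have e2 : ∏ i ∈ range k, (q ^ n - q ^ i) = (∏ i ∈ range j, (q ^ n - q ^ i)) * ∏ i ∈ range m, (q ^ n - q ^ (j + i)) := by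
    rw [show range k = range (j + m) by rw [← hm], prod_range_add]
  rw [e1, e2] at h2
  have hP : 0 < ∏ i ∈ range m, (q ^ k - q ^ (j + i)) := by
    apply prod_pos
    intro i hi
    rw [mem_range] at hi
    exact pow_sub_pos (F := F) (by omega)
  have hQ : 0 < ∏ i ∈ range j, (q ^ k - q ^ i) := by
    apply prod_pos
    intro i hi
    rw [mem_range] at hi
    exact pow_sub_pos (F := F) (by omega)
  have hle : (∏ i ∈ range j, (q ^ k - q ^ i)) * q ^ (j * (n - k)) ≤ ∏ i ∈ range j, (q ^ n - q ^ i) := by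
    have : q ^ (j * (n - k)) = ∏ _i ∈ range j, q ^ (n - k) := by
      rw [prod_const, card_range, ← pow_mul, mul_comm]
    rw [this, ← prod_mul_distrib]
    apply prod_le_prod' 
    intro i _
    rw [Nat.sub_mul, ← pow_add, ← pow_add, show k + (n - k) = n by omega]
    apply Nat.sub_le_sub_left
    exact Nat.pow_le_pow_right (by have := one_lt_q (F := F); omega) (by omega)
  have h3 : (A (⊥ : Submodule F V) k).card * (∏ i ∈ range j, (q ^ k - q ^ i)) =
      (∏ i ∈ range j, (q ^ n - q ^ i)) * (A U k).card := by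
    apply Nat.eq_of_mul_eq_mul_right hP
    calc _ = (A (⊥ : Submodule F V) k).card * ((∏ i ∈ range j, (q ^ k - q ^ i)) * ∏ i ∈ range m, (q ^ k - q ^ (j + i))) := by ring
      _ = _ := h2
      _ = _ := by rw [← h1]; ring
  apply Nat.le_of_mul_le_mul_right _ hQ
  calc (A U k).card * q ^ (j * (n - k)) * ∏ i ∈ range j, (q ^ k - q ^ i)
      = ((∏ i ∈ range j, (q ^ k - q ^ i)) * q ^ (j * (n - k))) * (A U k).card := by ring
    _ ≤ (∏ i ∈ range j, (q ^ n - q ^ i)) * (A U k).card := Nat.mul_le_mul_right _ hle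
    _ = _ := h3.symm

open Classical in
noncomputable def X (E : Submodule F V) (k j : ℕ) : Finset (Submodule F V) :=
  univ.filter fun C => finrank F C = k ∧ j ≤ finrank F (C ⊓ E : Submodule F V)

lemma mem_X {E C : Submodule F V} {k j : ℕ} :
    C ∈ X E k j ↔ finrank F C = k ∧ j ≤ finrank F (C ⊓ E : Submodule F V) := by
  simp [X]

lemma T_lower (C : Submodule F V) (j : ℕ) (h : j ≤ finrank F C) :
    (Fintype.card F - 1) ^ j * Fintype.card F ^ (j * (j - 1)) ≤ (T (⊥ : Submodule F V) C j).card := by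
  rw [card_T _ _ bot_le, finrank_bot]
  have : (Fintype.card F - 1) ^ j * Fintype.card F ^ (j * (j - 1)) =
      ∏ _i ∈ range j, ((Fintype.card F - 1) * Fintype.card F ^ (j - 1)) := by
    rw [prod_const, card_range, mul_pow, ← pow_mul, mul_comm (j - 1) j]
  rw [this]
  apply prod_le_prod'
  intro i hi
  rw [mem_range] at hi
  rw [Nat.sub_mul, one_mul, ← pow_succ', show j - 1 + 1 = j by omega, Nat.zero_add]
  have h1 : Fintype.card F ^ j ≤ Fintype.card F ^ finrank F C :=
    Nat.pow_le_pow_right (by have := one_lt_q (F := F); omega) h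
  have h2 : Fintype.card F ^ i ≤ Fintype.card F ^ (j - 1) :=
    Nat.pow_le_pow_right (by have := one_lt_q (F := F); omega) (by omega)
  omega

theorem X_le (E : Submodule F V) (k j : ℕ) (hjk : j ≤ k) (hkn : k ≤ finrank F V) :
    (X E k j).card * ((Fintype.card F - 1) ^ j * Fintype.card F ^ (j * (j - 1))) *
      Fintype.card F ^ (j * (finrank F V - k)) ≤
      Fintype.card F ^ (finrank F E * j) * (A (⊥ : Submodule F V) k).card := by
  classical
  set L := (Fintype.card F - 1) ^ j * Fintype.card F ^ (j * (j - 1))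
  have h1 : (X E k j).card * L ≤
      ∑ C ∈ X E k j, ((T (⊥ : Submodule F V) E j).filter fun v => ∀ i, v i ∈ C).card := by
    rw [← smul_eq_mul, ← sum_const]
    apply sum_le_sum
    intro C hC
    rw [mem_X] at hC
    refine (T_lower (C ⊓ E) j hC.2).trans (card_le_card ?_)
    intro v hv
    rw [mem_T] at hv
    rw [mem_filter, mem_T]
    exact ⟨⟨fun i => (mem_inf.1 (hv.1 i)).2, hv.2⟩, fun i => (mem_inf.1 (hv.1 i)).1⟩
  have h2 : ∑ C ∈ X E k j, ((T (⊥ : Submodule F V) E j).filter fun v => ∀ i, v i ∈ C).card =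
      ∑ v ∈ T (⊥ : Submodule F V) E j, ((X E k j).filter fun C => ∀ i, v i ∈ C).card := by
    exact sum_card_bipartiteAbove_eq_sum_card_bipartiteBelow
      (fun (C : Submodule F V) (v : Fin j → V) => ∀ i, v i ∈ C)
  have h3 : (∑ v ∈ T (⊥ : Submodule F V) E j, ((X E k j).filter fun C => ∀ i, v i ∈ C).card) *
      Fintype.card F ^ (j * (finrank F V - k)) ≤
      (T (⊥ : Submodule F V) E j).card * (A (⊥ : Submodule F V) k).card := by
    rw [sum_mul, ← smul_eq_mul (a := (T (⊥ : Submodule F V) E j).card), ← sum_const]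
    apply sum_le_sum
    intro v hv
    rw [mem_T, bot_sup_eq, finrank_bot, Nat.zero_add] at hv
    have := A_le (span F (Set.range v)) k (by rw [hv.2]; exact hjk) hkn
    rw [hv.2] at this
    refine le_trans (Nat.mul_le_mul_right _ (card_le_card ?_)) this
    intro C hC
    rw [mem_filter, mem_X] at hC
    rw [mem_A]
    exact ⟨hC.1.1, span_le.2 (by rintro _ ⟨i, rfl⟩; exact hC.2 i)⟩
  have h4 : (T (⊥ : Submodule F V) E j).card ≤ Fintype.card F ^ (finrank F E * j) := by
    rw [card_T _ _ bot_le, pow_mul]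
    refine (prod_le_pow_card _ _ (Fintype.card F ^ finrank F E) ?_).trans (by rw [card_range])
    intro i _
    exact Nat.sub_le _ _
  calc _ ≤ (∑ v ∈ T (⊥ : Submodule F V) E j, ((X E k j).filter fun C => ∀ i, v i ∈ C).card) *
      Fintype.card F ^ (j * (finrank F V - k)) := by rw [← h2]; exact Nat.mul_le_mul_right _ h1
    _ ≤ _ := h3
    _ ≤ _ := Nat.mul_le_mul_right _ h4


/-! ### Invariant subspaces -/

/-- the space spanned by a tuple and its image -/
noncomputable def W (M : V →ₗ[F] V) {i : ℕ} (w : Fin i → V) : Submodule F V :=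
  span F (Set.range w) ⊔ span F (Set.range fun l => M (w l))

lemma W_cons (M : V →ₗ[F] V) {i : ℕ} (x : V) (w : Fin i → V) :
    W M (Fin.cons x w : Fin (i + 1) → V) = (W M w ⊔ span F {x}) ⊔ span F {M x} := by
  unfold W
  have h1 : (fun l => M ((Fin.cons x w : Fin (i + 1) → V) l)) =
      (Fin.cons (M x) (fun l => M (w l)) : Fin (i + 1) → V) := by
    funext l
    refine Fin.cases ?_ ?_ l
    · simp
    · intro l; simp
  rw [h1, Fin.range_cons, Fin.range_cons, Set.insert_eq, Set.insert_eq, span_union, span_union]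
  ac_rfl

/-- shifted map -/
noncomputable def Sh (M : V →ₗ[F] V) (c : F) : V →ₗ[F] V := M - c • LinearMap.id

lemma Sh_apply (M : V →ₗ[F] V) (c : F) (x : V) : Sh M c x = M x - c • x := by
  simp [Sh]

lemma finrank_pre (f : V →ₗ[F] V) (C S : Submodule F V) :
    finrank F (C ⊓ S.comap f : Submodule F V) ≤
      finrank F (C ⊓ LinearMap.ker f : Submodule F V) + finrank F S := by
  set D := C ⊓ S.comap f with hD
  have h := LinearMap.finrank_range_add_finrank_ker (f.domRestrict D)
  have h1 : finrank F (LinearMap.range (f.domRestrict D)) ≤ finrank F S := by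
    apply Submodule.finrank_mono
    rintro _ ⟨⟨x, hx⟩, rfl⟩
    rw [hD, Submodule.mem_inf] at hx
    exact hx.2
  have h2 : finrank F (LinearMap.ker (f.domRestrict D)) ≤
      finrank F (C ⊓ LinearMap.ker f : Submodule F V) := by
    rw [← Submodule.finrank_map_subtype_eq D (LinearMap.ker (f.domRestrict D))]
    apply Submodule.finrank_mono
    rintro _ ⟨⟨x, hx⟩, hx2, rfl⟩
    rw [hD, Submodule.mem_inf] at hx
    rw [Submodule.mem_inf]
    refine ⟨hx.1, ?_⟩
    simpa using hx2
  omega

open Classical in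
noncomputable def G (M : V →ₗ[F] V) (C : Submodule F V) (i : ℕ) : Finset (Fin i → V) :=
  univ.filter fun w => (∀ l, w l ∈ C) ∧ finrank F (W M w) = 2 * i

lemma mem_G {M : V →ₗ[F] V} {C : Submodule F V} {i : ℕ} {w : Fin i → V} :
    w ∈ G M C i ↔ (∀ l, w l ∈ C) ∧ finrank F (W M w) = 2 * i := by
  simp [G]

lemma card_ext (M : V →ₗ[F] V) (C : Submodule F V) (k s i : ℕ) (hk : finrank F C = k)
    (hsk : 2 * s + 1 ≤ k) (hi : i < s)
    (hbad : ∀ c : F, finrank F (C ⊓ LinearMap.ker (Sh M c) : Submodule F V) < k - 2 * s)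
    (w : Fin i → V) (hw : w ∈ G M C i) :
    Fintype.card F ^ k ≤ 2 * (open Classical in univ.filter fun x : V => x ∈ C ∧ x ∉ W M w ∧
      ∀ c : F, Sh M c x ∉ W M w).card := by
  classical
  rw [mem_G] at hw
  set q := Fintype.card F with hq
  have hq1 : 1 < q := one_lt_q (F := F)
  set Ex := univ.filter fun x : V => x ∈ C ∧ x ∉ W M w ∧ ∀ c : F, Sh M c x ∉ W M w with hEx
  have hcov : (univ.filter fun x : V => x ∈ C) ⊆
      Ex ∪ ((univ.filter fun x : V => x ∈ W M w) ∪
        (univ : Finset F).biUnion fun c => univ.filter fun x : V => x ∈ (C ⊓ (W M w).comap (Sh M c) : Submodule F V)) := by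
    intro x hx
    rw [mem_filter] at hx
    rw [mem_union, mem_union, mem_biUnion, hEx, mem_filter, mem_filter]
    by_cases h1 : x ∈ W M w
    · right; left; exact ⟨mem_univ _, h1⟩
    · by_cases h2 : ∀ c : F, Sh M c x ∉ W M w
      · left; exact ⟨mem_univ _, hx.2, h1, h2⟩
      · right; right
        push Not at h2
        obtain ⟨c, hc⟩ := h2
        refine ⟨c, mem_univ _, ?_⟩
        rw [mem_filter]
        exact ⟨mem_univ _, mem_inf.2 ⟨hx.2, hc⟩⟩
  have hc := (card_le_card hcov).trans ((card_union_le _ _).trans (Nat.add_le_add_left (card_union_le _ _) _))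
  rw [card_filter_mem, hk, card_filter_mem, hw.2, ← hq] at hc
  have hb : ((univ : Finset F).biUnion fun c => univ.filter fun x : V =>
      x ∈ (C ⊓ (W M w).comap (Sh M c) : Submodule F V)).card ≤ q * q ^ (k - 3) := by
    refine card_biUnion_le.trans ?_
    have : ∀ c ∈ (univ : Finset F), (univ.filter fun x : V =>
        x ∈ (C ⊓ (W M w).comap (Sh M c) : Submodule F V)).card ≤ q ^ (k - 3) := by
      intro c _
      rw [card_filter_mem]
      apply Nat.pow_le_pow_right (by omega)
      have h1 := finrank_pre (Sh M c) C (W M w)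
      have h2 := hbad c
      rw [hw.2] at h1
      omega
    refine (sum_le_sum this).trans ?_
    rw [sum_const, card_univ, smul_eq_mul]
  have h2i : q ^ (2 * i) ≤ q ^ (k - 3) := Nat.pow_le_pow_right (by omega) (by omega)
  have hk3 : q ^ k = q ^ 3 * q ^ (k - 3) := by rw [← pow_add]; congr 1; omega
  have hq3 : 2 * (1 + q) ≤ q ^ 3 := by
    have : 2 * 2 * q ≤ q ^ 3 := by
      have h22 : 2 * 2 ≤ q * q := Nat.mul_le_mul (by omega) (by omega)
      calc 2 * 2 * q ≤ q * q * q := Nat.mul_le_mul_right _ h22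
        _ = q ^ 3 := by ring
    omega
  have h5 : 2 * ((1 + q) * q ^ (k - 3)) ≤ q ^ k := by
    rw [hk3, ← mul_assoc]
    exact Nat.mul_le_mul_right _ hq3
  have h6 : q ^ k ≤ Ex.card + (1 + q) * q ^ (k - 3) := by
    have e : (1 + q) * q ^ (k - 3) = q ^ (k - 3) + q * q ^ (k - 3) := by ring
    omega
  omega

lemma G_step (M : V →ₗ[F] V) (C : Submodule F V) (k s i : ℕ) (hk : finrank F C = k)
    (hsk : 2 * s + 1 ≤ k) (hi : i < s)
    (hbad : ∀ c : F, finrank F (C ⊓ LinearMap.ker (Sh M c) : Submodule F V) < k - 2 * s) :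
    (G M C i).card * Fintype.card F ^ k ≤ 2 * (G M C (i + 1)).card := by
  classical
  have h1 : ((G M C i).sigma fun w => univ.filter fun x : V => x ∈ C ∧ x ∉ W M w ∧
      ∀ c : F, Sh M c x ∉ W M w).card ≤ (G M C (i + 1)).card := by
    apply card_le_card_of_injOn (fun (p : Σ _ : Fin i → V, V) => (Fin.cons p.2 p.1 : Fin (i + 1) → V))
    · rintro ⟨w, x⟩ hp
      rw [mem_coe, mem_sigma, mem_filter, mem_G] at hp
      obtain ⟨⟨h1, h2⟩, _, h3, h4, h5⟩ := hp
      rw [mem_coe, mem_G]
      dsimp only at h1 h2 h3 h4 h5 ⊢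
      constructor
      · intro l
        refine Fin.cases ?_ ?_ l
        · simpa using h3
        · intro l; simpa using h1 l
      · rw [W_cons, finrank_sup_singleton, finrank_sup_singleton h4, h2]
        · ring
        · intro h6
          rw [Submodule.mem_sup] at h6
          obtain ⟨u, hu, v, hv, huv⟩ := h6
          obtain ⟨c, rfl⟩ := mem_span_singleton.1 hv
          apply h5 c
          rw [Sh_apply, ← huv, add_sub_cancel_right]
          exact hu
    · rintro ⟨v, x⟩ _ ⟨v', x'⟩ _ h
      have := Fin.cons_injective2 h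
      obtain ⟨rfl, rfl⟩ := this
      rfl
  rw [card_sigma] at h1
  calc (G M C i).card * Fintype.card F ^ k = ∑ _w ∈ G M C i, Fintype.card F ^ k := by
        rw [sum_const, smul_eq_mul]
    _ ≤ ∑ w ∈ G M C i, 2 * (univ.filter fun x : V => x ∈ C ∧ x ∉ W M w ∧
      ∀ c : F, Sh M c x ∉ W M w).card := sum_le_sum fun w hw => card_ext M C k s i hk hsk hi hbad w hw
    _ = 2 * ∑ w ∈ G M C i, (univ.filter fun x : V => x ∈ C ∧ x ∉ W M w ∧
      ∀ c : F, Sh M c x ∉ W M w).card := by rw [mul_sum]
    _ ≤ _ := Nat.mul_le_mul_left _ h1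

lemma G_card (M : V →ₗ[F] V) (C : Submodule F V) (k s : ℕ) (hk : finrank F C = k)
    (hsk : 2 * s + 1 ≤ k)
    (hbad : ∀ c : F, finrank F (C ⊓ LinearMap.ker (Sh M c) : Submodule F V) < k - 2 * s)
    (i : ℕ) (hi : i ≤ s) :
    Fintype.card F ^ (k * i) ≤ 2 ^ i * (G M C i).card := by
  induction i with
  | zero =>
    rw [Nat.mul_zero, pow_zero, pow_zero, one_mul, Nat.one_le_iff_ne_zero, Ne, card_eq_zero, ← Ne,
      ← nonempty_iff_ne_empty]
    refine ⟨Fin.elim0, ?_⟩
    rw [mem_G]
    refine ⟨fun l => l.elim0, ?_⟩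
    unfold W
    rw [Set.range_eq_empty, Set.range_eq_empty, span_empty, sup_bot_eq, finrank_bot]
  | succ i ih =>
    have h1 := ih (by omega)
    have h2 := G_step M C k s i hk hsk (by omega) hbad
    calc Fintype.card F ^ (k * (i + 1)) = Fintype.card F ^ (k * i) * Fintype.card F ^ k := by
          rw [← pow_add]; ring_nf
      _ ≤ (2 ^ i * (G M C i).card) * Fintype.card F ^ k := Nat.mul_le_mul_right _ h1
      _ = 2 ^ i * ((G M C i).card * Fintype.card F ^ k) := by ring
      _ ≤ 2 ^ i * (2 * (G M C (i + 1)).card) := Nat.mul_le_mul_left _ h2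
      _ = _ := by ring

open Classical in
noncomputable def Y (M : V →ₗ[F] V) (k s : ℕ) : Finset (Submodule F V) :=
  univ.filter fun C => finrank F C = k ∧ (∀ x ∈ C, M x ∈ C) ∧
    ∀ c : F, finrank F (C ⊓ LinearMap.ker (Sh M c) : Submodule F V) < k - 2 * s

lemma mem_Y {M : V →ₗ[F] V} {k s : ℕ} {C : Submodule F V} :
    C ∈ Y M k s ↔ finrank F C = k ∧ (∀ x ∈ C, M x ∈ C) ∧
    ∀ c : F, finrank F (C ⊓ LinearMap.ker (Sh M c) : Submodule F V) < k - 2 * s := by
  simp [Y]

theorem Y_le (M : V →ₗ[F] V) (k s : ℕ) (hsk : 2 * s + 1 ≤ k) (hkn : k ≤ finrank F V) :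
    (Y M k s).card * Fintype.card F ^ (s * (finrank F V - k)) ≤
      2 ^ s * (A (⊥ : Submodule F V) k).card := by
  classical
  set q := Fintype.card F with hq
  set n := finrank F V with hn
  have hq1 : 1 < q := one_lt_q (F := F)
  have h1 : (Y M k s).card * q ^ (k * s) ≤ 2 ^ s * ∑ C ∈ Y M k s, (G M C s).card := by
    rw [mul_sum, ← smul_eq_mul (a := (Y M k s).card), ← sum_const]
    apply sum_le_sum
    intro C hC
    rw [mem_Y] at hC
    exact G_card M C k s hC.1 hsk hC.2.2 s le_rfl
  have h2 : ∑ C ∈ Y M k s, (G M C s).card =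
      ∑ w ∈ univ.filter (fun w : Fin s → V => finrank F (W M w) = 2 * s),
        ((Y M k s).filter fun C => ∀ l, w l ∈ C).card := by
    refine Eq.trans ?_ (sum_card_bipartiteAbove_eq_sum_card_bipartiteBelow
      (s := Y M k s) (t := univ.filter (fun w : Fin s → V => finrank F (W M w) = 2 * s))
      (fun (C : Submodule F V) (w : Fin s → V) => ∀ l, w l ∈ C))
    apply sum_congr rfl
    intro C _
    congr 1
    ext w
    rw [mem_G, mem_bipartiteAbove, mem_filter]
    constructor
    · rintro ⟨a, b⟩; exact ⟨⟨mem_univ _, b⟩, a⟩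
    · rintro ⟨⟨_, b⟩, a⟩; exact ⟨a, b⟩
  have h3 : (∑ w ∈ univ.filter (fun w : Fin s → V => finrank F (W M w) = 2 * s),
        ((Y M k s).filter fun C => ∀ l, w l ∈ C).card) * q ^ (2 * s * (n - k)) ≤
      q ^ (n * s) * (A (⊥ : Submodule F V) k).card := by
    rw [sum_mul]
    have hb : ∀ w ∈ univ.filter (fun w : Fin s → V => finrank F (W M w) = 2 * s),
        ((Y M k s).filter fun C => ∀ l, w l ∈ C).card * q ^ (2 * s * (n - k)) ≤
          (A (⊥ : Submodule F V) k).card := by
      intro w hw
      rw [mem_filter] at hw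
      have := A_le (W M w) k (by rw [hw.2]; omega) hkn
      rw [hw.2] at this
      refine le_trans (Nat.mul_le_mul_right _ (card_le_card ?_)) this
      intro C hC
      rw [mem_filter, mem_Y] at hC
      rw [mem_A]
      refine ⟨hC.1.1, ?_⟩
      apply sup_le
      · exact span_le.2 (by rintro _ ⟨l, rfl⟩; exact hC.2 l)
      · exact span_le.2 (by rintro _ ⟨l, rfl⟩; exact hC.1.2.1 _ (hC.2 l))
    refine (sum_le_sum hb).trans ?_
    rw [sum_const, smul_eq_mul]
    apply Nat.mul_le_mul_right
    refine (card_le_univ _).trans ?_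
    rw [Fintype.card_fun, Fintype.card_fin, Module.card_eq_pow_finrank (K := F) (V := V), ← pow_mul]
  rw [h2] at h1
  have hpos : 0 < q ^ (n * s) := Nat.pow_pos (by omega)
  apply Nat.le_of_mul_le_mul_right _ hpos
  obtain ⟨m, hm⟩ : ∃ m, n = k + m := ⟨n - k, by omega⟩
  have hnk : n - k = m := by omega
  calc (Y M k s).card * q ^ (s * (n - k)) * q ^ (n * s)
      = ((Y M k s).card * q ^ (k * s)) * q ^ (2 * s * (n - k)) := by
        rw [hnk, hm]; ring
    _ ≤ (2 ^ s * ∑ w ∈ univ.filter (fun w : Fin s → V => finrank F (W M w) = 2 * s),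
        ((Y M k s).filter fun C => ∀ l, w l ∈ C).card) * q ^ (2 * s * (n - k)) :=
        Nat.mul_le_mul_right _ h1
    _ = 2 ^ s * ((∑ w ∈ univ.filter (fun w : Fin s → V => finrank F (W M w) = 2 * s),
        ((Y M k s).filter fun C => ∀ l, w l ∈ C).card) * q ^ (2 * s * (n - k))) := by ring
    _ ≤ 2 ^ s * (q ^ (n * s) * (A (⊥ : Submodule F V) k).card) := Nat.mul_le_mul_left _ h3
    _ = _ := by ring

end Pool.Agent.H313RC
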