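import Pool.Agent.H313RC.Union

set_option autoImplicit false

open Filter Topology

namespace Pool.Agent.H313RC

/-- all estimates at a fixed large length -/
lemma err_le (q n : ℕ) (hq : 3 ≤ q) (R : ℝ) (h0 : 0 < R) (h1 : R < 1) (y : ℝ) (hy : 2 ≤ y)
    (hyn : y ^ 4 = n)
    (hy1 : 18 * (4 + Real.log q) + 1 ≤ (1 - R) * Real.log q * y)
    (hy2 : 6 + Real.log q ≤ (1 - R) * Real.log q / 2 * y)
    (hy3 : 3 ≤ R / 2 * y)
    (hy4 : 5 + 2 * Real.log q ≤ R * Real.log q / 2 * y)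
    (hy5 : 9 + 2 * Real.log q + Real.log (q - 1) ≤ R * Real.log (q - 1) * y) :
    err q n ⌊R * n⌋₊ (Nat.sqrt n) ≤ 4 * Real.exp (-y) := by
  set k := ⌊R * (n : ℝ)⌋₊ with hk
  set s := Nat.sqrt n with hs
  set c := Real.log q with hc
  set b := Real.log ((q : ℝ) - 1) with hb
  have hq' : (3 : ℝ) ≤ q := by exact_mod_cast hq
  have hcpos : 0 < c := Real.log_pos (by linarith)
  have hbpos : 0 < b := Real.log_pos (by linarith)
  have hy0 : 0 < y := by linarith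
  have hn0 : (0 : ℝ) < n := by rw [← hyn]; positivity
  -- the logarithm
  have hL : Real.log n ≤ 4 * y := by
    rw [← hyn, Real.log_pow]
    have := Real.log_le_sub_one_of_pos hy0
    push_cast
    linarith
  set L := Real.log (n : ℝ) with hLdef
  have hL0 : 0 ≤ L := by
    apply Real.log_nonneg
    rw [← hyn]
    calc (1 : ℝ) = 1 ^ 4 := by norm_num
      _ ≤ y ^ 4 := pow_le_pow_left₀ (by norm_num) (by linarith) 4
  -- s
  have hs1 : (s : ℝ) ≤ y ^ 2 := by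
    have h : s * s ≤ n := Nat.sqrt_le n
    have h' : (s : ℝ) * s ≤ n := by exact_mod_cast h
    rw [← hyn] at h'
    nlinarith [sq_nonneg ((s : ℝ) - y ^ 2), Nat.cast_nonneg (α := ℝ) s, pow_pos hy0 2]
  have hs2 : y ^ 2 ≤ s + 1 := by
    have h : n < (s + 1) * (s + 1) := Nat.lt_succ_sqrt n
    have h' : (n : ℝ) < ((s : ℝ) + 1) * ((s : ℝ) + 1) := by exact_mod_cast h
    rw [← hyn] at h'
    nlinarith [Nat.cast_nonneg (α := ℝ) s, pow_pos hy0 2]
  have hs0 : (0 : ℝ) ≤ s := Nat.cast_nonneg s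
  -- k
  have hRn : 0 ≤ R * (n : ℝ) := by positivity
  have hk1 : (k : ℝ) ≤ R * y ^ 4 := by rw [hyn]; exact Nat.floor_le hRn
  have hk2 : R * y ^ 4 - 1 < k := by
    rw [hyn]; have := Nat.lt_floor_add_one (R * (n : ℝ)); rw [← hk] at this; linarith
  have hkn : k ≤ n := by
    have : (k : ℝ) ≤ n := by
      rw [← hyn]
      have : R * y ^ 4 ≤ 1 * y ^ 4 := mul_le_mul_of_nonneg_right h1.le (by positivity)
      linarith
    exact_mod_cast this
  have hnk : ((n - k : ℕ) : ℝ) = y ^ 4 - k := by rw [Nat.cast_sub hkn, hyn]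
  have hnk1 : (1 - R) * y ^ 4 ≤ ((n - k : ℕ) : ℝ) := by rw [hnk]; linarith
  have h2y : (1 : ℝ) ≤ y := by linarith
  have hyy : (1 : ℝ) ≤ y ^ 2 := one_le_pow₀ h2y
  have hy4' : y ^ 2 * y ^ 2 = y ^ 4 := by ring
  have hk2s : 2 * s ≤ k := by
    have : (2 : ℝ) * s ≤ k := by
      have e1 : 3 * y ^ 3 ≤ R / 2 * y * y ^ 3 := mul_le_mul_of_nonneg_right hy3 (by positivity)
      have e2 : y ^ 2 ≤ y ^ 3 := pow_le_pow_right₀ h2y (by norm_num)
      have e3 : (0 : ℝ) ≤ R * y ^ 4 := by positivity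
      nlinarith
    exact_mod_cast this
  have hk2s' : ((k - 2 * s : ℕ) : ℝ) = k - 2 * s := by rw [Nat.cast_sub hk2s]; push_cast; ring
  -- powers as exponentials
  have pn : ∀ m : ℕ, (n : ℝ) ^ m = Real.exp (m * L) := by
    intro m; rw [Real.exp_nat_mul, hLdef, Real.exp_log hn0]
  have pq : ∀ m : ℕ, (q : ℝ) ^ m = Real.exp (m * c) := by
    intro m; rw [Real.exp_nat_mul, hc, Real.exp_log (by linarith)]
  have pq1 : ∀ m : ℕ, ((q : ℝ) - 1) ^ m = Real.exp (m * b) := by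
    intro m; rw [Real.exp_nat_mul, hb, Real.exp_log (by linarith)]
  have y34 : y ^ 3 ≤ y ^ 4 := pow_le_pow_right₀ h2y (by norm_num)
  -- the four terms
  have T1 : (n : ℝ) ^ (12 * s + 6) * ((q : ℝ) ^ (12 * s + 6) / (q : ℝ) ^ (n - k)) ≤ Real.exp (-y) := by
    rw [pn, pq, pq, ← Real.exp_sub, ← Real.exp_add, Real.exp_le_exp]
    push_cast
    have e1 : (12 * (s : ℝ) + 6) * (L + c) ≤ (18 * y ^ 2) * ((4 + c) * y) := by
      apply mul_le_mul
      · nlinarith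
      · nlinarith
      · linarith
      · positivity
    have e2 : (1 - R) * y ^ 4 * c ≤ ((n - k : ℕ) : ℝ) * c := mul_le_mul_of_nonneg_right hnk1 hcpos.le
    have e3 : (18 * (4 + c) + 1) * y ^ 3 ≤ (1 - R) * c * y * y ^ 3 := mul_le_mul_of_nonneg_right hy1 (by positivity)
    have e4 : y ≤ y ^ 3 := by
      calc y = y ^ 1 := (pow_one y).symm
        _ ≤ y ^ 3 := pow_le_pow_right₀ h2y (by norm_num)
    nlinarith
  have T2 : ((n : ℝ) ^ 2 * (q : ℝ) ^ 2) * (1 / ((q : ℝ) - 1) ^ k) ≤ Real.exp (-y) := by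
    rw [pn, pq, pq1, one_div, ← Real.exp_neg, ← Real.exp_add, ← Real.exp_add, Real.exp_le_exp]
    push_cast
    have e1 : (R * y ^ 4 - 1) * b ≤ k * b := mul_le_mul_of_nonneg_right hk2.le hbpos.le
    have e2 : (9 + 2 * c + b) * y ^ 3 ≤ R * b * y * y ^ 3 := mul_le_mul_of_nonneg_right hy5 (by positivity)
    have e4 : y ≤ y ^ 3 := by
      calc y = y ^ 1 := (pow_one y).symm
        _ ≤ y ^ 3 := pow_le_pow_right₀ h2y (by norm_num)
    have e5 : 1 ≤ y ^ 3 := one_le_pow₀ h2y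
    nlinarith
  have T3 : ((n : ℝ) ^ n * (q : ℝ) ^ n) * ((2 : ℝ) ^ s / (q : ℝ) ^ (s * (n - k))) ≤ Real.exp (-y) := by
    have h2s : (2 : ℝ) ^ s ≤ Real.exp (s * 1) := by
      rw [Real.exp_nat_mul]
      exact pow_le_pow_left₀ (by norm_num) (by have := Real.add_one_le_exp (1 : ℝ); linarith) s
    have : ((n : ℝ) ^ n * (q : ℝ) ^ n) * ((2 : ℝ) ^ s / (q : ℝ) ^ (s * (n - k))) ≤
        ((n : ℝ) ^ n * (q : ℝ) ^ n) * (Real.exp (s * 1) / (q : ℝ) ^ (s * (n - k))) := by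
      gcongr
    refine this.trans ?_
    rw [pn, pq, pq, ← Real.exp_sub, ← Real.exp_add, ← Real.exp_add, Real.exp_le_exp]
    push_cast
    rw [← hyn]
    have e1 : y ^ 4 * L + y ^ 4 * c ≤ (4 + c) * y ^ 5 := by
      have a1 : y ^ 4 * L ≤ y ^ 4 * (4 * y) := mul_le_mul_of_nonneg_left hL (by positivity)
      have a2 : y ^ 4 * c ≤ y ^ 5 * c := mul_le_mul_of_nonneg_right (pow_le_pow_right₀ h2y (by norm_num)) hcpos.le
      nlinarith
    have e2 : (s : ℝ) ≤ y ^ 5 := hs1.trans (pow_le_pow_right₀ h2y (by norm_num))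
    have e3 : (y ^ 2 / 2) * ((1 - R) * y ^ 4) ≤ s * ((n - k : ℕ) : ℝ) := by
      apply mul_le_mul
      · nlinarith
      · exact hnk1
      · have : 0 < 1 - R := by linarith
        positivity
      · exact hs0
    have e4 : (y ^ 2 / 2) * ((1 - R) * y ^ 4) * c ≤ s * ((n - k : ℕ) : ℝ) * c :=
      mul_le_mul_of_nonneg_right e3 hcpos.le
    have e5 : (6 + c) * y ^ 5 ≤ (1 - R) * c / 2 * y * y ^ 5 := mul_le_mul_of_nonneg_right hy2 (by positivity)
    have e6 : y ≤ y ^ 5 := by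
      calc y = y ^ 1 := (pow_one y).symm
        _ ≤ y ^ 5 := pow_le_pow_right₀ h2y (by norm_num)
    nlinarith
  have T4 : ((n : ℝ) ^ n * (q : ℝ) ^ n) * (q * (1 / (q : ℝ) ^ ((k - 2 * s) * (2 * s + 1)))) ≤ Real.exp (-y) := by
    have hqq : (q : ℝ) = Real.exp (1 * c) := by rw [one_mul, hc, Real.exp_log (by linarith)]
    have : ((n : ℝ) ^ n * (q : ℝ) ^ n) * (q * (1 / (q : ℝ) ^ ((k - 2 * s) * (2 * s + 1)))) =
        Real.exp (n * L + n * c + (1 * c + -(((k - 2 * s) * (2 * s + 1) : ℕ) * c))) := by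
      rw [Real.exp_add, Real.exp_add, Real.exp_add, ← pn, ← pq, ← hqq, one_div, Real.exp_neg, ← pq]
    rw [this, Real.exp_le_exp]
    push_cast
    rw [hk2s', ← hyn]
    have e1 : y ^ 4 * L + y ^ 4 * c ≤ (4 + c) * y ^ 5 := by
      have a1 : y ^ 4 * L ≤ y ^ 4 * (4 * y) := mul_le_mul_of_nonneg_left hL (by positivity)
      have a2 : y ^ 4 * c ≤ y ^ 5 * c := mul_le_mul_of_nonneg_right (pow_le_pow_right₀ h2y (by norm_num)) hcpos.le
      nlinarith
    have e0 : R / 2 * y ^ 4 ≤ (k : ℝ) - 2 * s := by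
      have a1 : 3 * y ^ 3 ≤ R / 2 * y * y ^ 3 := mul_le_mul_of_nonneg_right hy3 (by positivity)
      have a2 : y ^ 2 ≤ y ^ 3 := pow_le_pow_right₀ h2y (by norm_num)
      have a3 : (1 : ℝ) ≤ y ^ 3 := one_le_pow₀ h2y
      nlinarith
    have e3 : (R / 2 * y ^ 4) * y ^ 2 ≤ ((k : ℝ) - 2 * s) * (2 * s + 1) := by
      apply mul_le_mul e0
      · nlinarith
      · positivity
      · have : (0 : ℝ) ≤ R / 2 * y ^ 4 := by positivity
        linarith
    have e4 : (R / 2 * y ^ 4) * y ^ 2 * c ≤ ((k : ℝ) - 2 * s) * (2 * s + 1) * c :=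
      mul_le_mul_of_nonneg_right e3 hcpos.le
    have e5 : (5 + 2 * c) * y ^ 5 ≤ R * c / 2 * y * y ^ 5 := mul_le_mul_of_nonneg_right hy4 (by positivity)
    have e6 : y ≤ y ^ 5 := by
      calc y = y ^ 1 := (pow_one y).symm
        _ ≤ y ^ 5 := pow_le_pow_right₀ h2y (by norm_num)
    have e7 : (1 : ℝ) ≤ y ^ 5 := one_le_pow₀ h2y
    have e8 : c ≤ c * y ^ 5 := by nlinarith
    nlinarith
  unfold err
  rw [mul_add]
  linarith

theorem err_tendsto (q : ℕ) (hq : 3 ≤ q) (R : ℝ) (h0 : 0 < R) (h1 : R < 1) :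
    Tendsto (fun n : ℕ => err q n ⌊R * n⌋₊ (Nat.sqrt n)) atTop (𝓝 0) := by
  have hq' : (3 : ℝ) ≤ q := by exact_mod_cast hq
  have hcpos : 0 < Real.log q := Real.log_pos (by linarith)
  have hbpos : 0 < Real.log ((q : ℝ) - 1) := Real.log_pos (by linarith)
  have hy : Tendsto (fun n : ℕ => (n : ℝ) ^ ((1 : ℝ) / 4)) atTop atTop :=
    (tendsto_rpow_atTop (by norm_num)).comp tendsto_natCast_atTop_atTop
  have hlim : Tendsto (fun n : ℕ => 4 * Real.exp (-((n : ℝ) ^ ((1 : ℝ) / 4)))) atTop (𝓝 0) := by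
    have := (Real.tendsto_exp_neg_atTop_nhds_zero.comp hy).const_mul (4 : ℝ)
    rw [mul_zero] at this
    exact this
  have hev : ∀ (A B : ℝ), 0 < B → ∀ᶠ n : ℕ in atTop, A ≤ B * (n : ℝ) ^ ((1 : ℝ) / 4) := by
    intro A B hB
    have := (hy.const_mul_atTop hB).eventually_ge_atTop A
    exact this
  apply squeeze_zero' _ _ hlim
  · filter_upwards with n
    unfold err
    have : (0 : ℝ) ≤ (q : ℝ) - 1 := by linarith
    positivity
  · have hR1 : 0 < 1 - R := by linarith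
    filter_upwards [hev 2 1 one_pos, hev _ _ (show 0 < (1 - R) * Real.log q by positivity),
      hev _ _ (show 0 < (1 - R) * Real.log q / 2 by positivity),
      hev 3 _ (show 0 < R / 2 by positivity),
      hev _ _ (show 0 < R * Real.log q / 2 by positivity),
      hev _ _ (show 0 < R * Real.log ((q : ℝ) - 1) by positivity)] with n a1 a2 a3 a4 a5 a6
    rw [one_mul] at a1
    apply err_le q n hq R h0 h1 _ a1 _ a2 a3 a4 a5 a6
    rw [← Real.rpow_natCast, ← Real.rpow_mul (Nat.cast_nonneg n)]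
    norm_num

end Pool.Agent.H313RC
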