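import Pool.Agent.H313RC.Count

set_option autoImplicit false
set_option linter.unusedSectionVars false

open Module Submodule Finset

namespace Pool.Agent.H313RC

variable {F : Type} [Field F] [Fintype F] {n : ℕ}

/-- monomial map `x ↦ (dᵢ x_{σ⁻¹ i})ᵢ` -/
def mono (d : Fin n → Fˣ) (σ : Equiv.Perm (Fin n)) : (Fin n → F) →ₗ[F] (Fin n → F) where
  toFun x := fun i => (d i : F) * x (σ⁻¹ i)
  map_add' x y := by funext i; simp [mul_add]
  map_smul' c x := by funext i; simp [mul_left_comm]

@[simp] lemma mono_apply (d : Fin n → Fˣ) (σ : Equiv.Perm (Fin n)) (x : Fin n → F) (i : Fin n) :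
    mono d σ x i = (d i : F) * x (σ⁻¹ i) := rfl

open Classical in
/-- coordinates that the map does not simply multiply by `c` -/
noncomputable def SS (d : Fin n → Fˣ) (σ : Equiv.Perm (Fin n)) (c : F) : Finset (Fin n) :=
  univ.filter fun i => ¬ (σ i = i ∧ (d i : F) = c)

lemma mem_SS {d : Fin n → Fˣ} {σ : Equiv.Perm (Fin n)} {c : F} {i : Fin n} :
    i ∈ SS d σ c ↔ ¬ (σ i = i ∧ (d i : F) = c) := by simp [SS]

lemma exists_K (σ : Equiv.Perm (Fin n)) (S : Finset (Fin n)) :
    ∃ K ⊆ S, S.card ≤ 3 * K.card ∧ ∀ i ∈ K, σ i ≠ i → σ i ∉ K := by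
  classical
  have hne : (S.powerset.filter fun K => ∀ i ∈ K, σ i ≠ i → σ i ∉ K).Nonempty :=
    ⟨∅, by simp⟩
  obtain ⟨K, hK, hmax⟩ := exists_max_image _ (fun K : Finset (Fin n) => K.card) hne
  rw [mem_filter, mem_powerset] at hK
  refine ⟨K, hK.1, ?_, hK.2⟩
  have hcov : S ⊆ K ∪ (K.image σ ∪ K.image σ.symm) := by
    intro i hi
    by_cases hiK : i ∈ K
    · exact mem_union_left _ hiK
    · apply mem_union_right
      by_contra hno
      rw [mem_union, mem_image, mem_image] at hno
      push Not at hno
      have hins : insert i K ∈ (S.powerset.filter fun K => ∀ i ∈ K, σ i ≠ i → σ i ∉ K) := by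
        rw [mem_filter, mem_powerset]
        refine ⟨insert_subset hi hK.1, ?_⟩
        intro j hj hσ hmem
        rw [mem_insert] at hj hmem
        rcases hj with rfl | hj
        · rcases hmem with h | h
          · exact hσ h
          · exact hno.2 _ h (by simp)
        · rcases hmem with h | h
          · exact hno.1 j hj h
          · exact hK.2 j hj hσ h
      have h1 := hmax _ hins
      rw [card_insert_of_notMem hiK] at h1
      omega
  have h1 := card_le_card hcov
  have h2 := card_union_le K (K.image σ ∪ K.image σ.symm)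
  have h3 := card_union_le (K.image σ) (K.image σ.symm)
  have h4 : (K.image σ).card ≤ K.card := card_image_le
  have h5 : (K.image σ.symm).card ≤ K.card := card_image_le
  omega

lemma ker_le (d : Fin n → Fˣ) (σ : Equiv.Perm (Fin n)) (c : F) (r : ℕ)
    (h : 3 * r ≤ (SS d σ c).card) :
    finrank F (LinearMap.ker (Sh (mono d σ) c)) ≤ n - r := by
  classical
  obtain ⟨K, hKS, hK3, hK⟩ := exists_K σ (SS d σ c)
  have hrK : r ≤ K.card := by omega
  let g : (LinearMap.ker (Sh (mono d σ) c)) →ₗ[F] ({i // i ∉ K} → F) :=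
    { toFun := fun x i => x.1 i.1
      map_add' := fun _ _ => rfl
      map_smul' := fun _ _ => rfl }
  have hg : Function.Injective g := by
    rw [← LinearMap.ker_eq_bot, LinearMap.ker_eq_bot']
    rintro ⟨x, hx⟩ hgx
    rw [LinearMap.mem_ker, Sh_apply] at hx
    have hx' : ∀ i, (d i : F) * x (σ⁻¹ i) = c * x i := by
      intro i
      have := congrFun hx i
      simp only [Pi.sub_apply, mono_apply, Pi.smul_apply, smul_eq_mul, Pi.zero_apply] at this
      exact sub_eq_zero.1 this
    have hoff : ∀ i, i ∉ K → x i = 0 := fun i hi => congrFun hgx ⟨i, hi⟩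
    apply Subtype.ext
    funext i
    change x i = 0
    by_cases hi : i ∈ K
    · by_cases hc : c = 0
      · have h1 := hx' (σ i)
        rw [hc, zero_mul, show σ⁻¹ (σ i) = i from σ.symm_apply_apply i] at h1
        exact (mul_eq_zero.1 h1).resolve_left (Units.ne_zero _)
      · have h1 := hx' i
        by_cases hσ : σ i = i
        · have h2 : σ⁻¹ i = i := by rw [Equiv.Perm.inv_eq_iff_eq]; exact hσ.symm
          rw [h2] at h1
          have h3 := mem_SS.1 (hKS hi)
          have h4 : (d i : F) ≠ c := fun h => h3 ⟨hσ, h⟩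
          have h5 : ((d i : F) - c) * x i = 0 := by rw [sub_mul, h1, sub_self]
          exact (mul_eq_zero.1 h5).resolve_left (sub_ne_zero.2 h4)
        · have h2 : σ⁻¹ i ∉ K := by
            intro h3
            have h4 : σ (σ⁻¹ i) ≠ σ⁻¹ i := by
              rw [show σ (σ⁻¹ i) = i from σ.apply_symm_apply i]
              intro h5
              apply hσ
              rw [Equiv.Perm.eq_inv_iff_eq] at h5
              exact h5
            have h6 := hK _ h3 h4
            rw [show σ (σ⁻¹ i) = i from σ.apply_symm_apply i] at h6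
            exact h6 hi
          rw [hoff _ h2, mul_zero] at h1
          exact (mul_eq_zero.1 h1.symm).resolve_left hc
    · exact hoff i hi
  have h1 := LinearMap.finrank_le_finrank_of_injective hg
  rw [Module.finrank_fintype_fun_eq_card, Fintype.card_subtype_compl, Fintype.card_fin] at h1
  simp only [Fintype.card_coe] at h1
  omega

/-- vectors supported on `S` -/
def Esup (S : Finset (Fin n)) : Submodule F (Fin n → F) where
  carrier := {x | ∀ i, i ∉ S → x i = 0}
  add_mem' := by intro a b ha hb i hi; simp [ha i hi, hb i hi]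
  zero_mem' := by intro i _; rfl
  smul_mem' := by intro c x hx i hi; simp [hx i hi]

lemma mem_Esup {S : Finset (Fin n)} {x : Fin n → F} :
    x ∈ (Esup S : Submodule F (Fin n → F)) ↔ ∀ i, i ∉ S → x i = 0 := Iff.rfl

lemma finrank_Esup (S : Finset (Fin n)) :
    finrank F (Esup S : Submodule F (Fin n → F)) ≤ S.card := by
  classical
  let g : (Esup S : Submodule F (Fin n → F)) →ₗ[F] (S → F) :=
    { toFun := fun x i => x.1 i.1
      map_add' := fun _ _ => rfl
      map_smul' := fun _ _ => rfl }
  have hg : Function.Injective g := by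
    rw [← LinearMap.ker_eq_bot, LinearMap.ker_eq_bot']
    rintro ⟨x, hx⟩ hgx
    apply Subtype.ext
    funext i
    by_cases hi : i ∈ S
    · exact congrFun hgx ⟨i, hi⟩
    · exact hx i hi
  have h1 := LinearMap.finrank_le_finrank_of_injective hg
  rw [Module.finrank_fintype_fun_eq_card, Fintype.card_coe] at h1
  exact h1

/-- the functional `x ↦ a x_j - b x_i` -/
def fn (p : (Fin n × Fin n) × (F × F)) : (Fin n → F) →ₗ[F] F where
  toFun x := p.2.1 * x p.1.1 - p.2.2 * x p.1.2
  map_add' x y := by simp only [Pi.add_apply]; ring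
  map_smul' c x := by simp only [Pi.smul_apply, smul_eq_mul, RingHom.id_apply]; ring

@[simp] lemma fn_apply (p : (Fin n × Fin n) × (F × F)) (x : Fin n → F) :
    fn p x = p.2.1 * x p.1.1 - p.2.2 * x p.1.2 := rfl

lemma finrank_ker_fn (f : (Fin n → F) →ₗ[F] F) (hf : f ≠ 0) :
    finrank F (LinearMap.ker f) = n - 1 := by
  have h := LinearMap.finrank_range_add_finrank_ker f
  rw [Module.finrank_fintype_fun_eq_card, Fintype.card_fin] at h
  have h1 : LinearMap.range f = ⊤ := LinearMap.range_eq_top.2 (LinearMap.surjective hf)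
  rw [h1, finrank_top, finrank_self] at h
  omega

/-- the code has only scalar monomial automorphisms -/
def Rigid (C : Submodule F (Fin n → F)) : Prop :=
  ∀ (d : Fin n → Fˣ) (σ : Equiv.Perm (Fin n)), C.map (mono d σ) = C →
    ∃ c : Fˣ, mono d σ = (c : F) • LinearMap.id

lemma cover (C : Submodule F (Fin n → F)) (k s w r : ℕ) (hk : finrank F C = k)
    (hwn : w ≤ n) (hw : w = 3 * r) (h : ¬ Rigid C) :
    (∃ S ∈ powersetCard w (univ : Finset (Fin n)), C ∈ X (Esup S) k 1) ∨
    (∃ p : (Fin n × Fin n) × (F × F), fn p ≠ 0 ∧ C ∈ X (LinearMap.ker (fn p)) k k) ∨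
    (∃ p : (Fin n → Fˣ) × Equiv.Perm (Fin n),
      (∀ c : F, finrank F (LinearMap.ker (Sh (mono p.1 p.2) c)) ≤ n - r) ∧
      (C ∈ Y (mono p.1 p.2) k s ∨ ∃ c : F, C ∈ X (LinearMap.ker (Sh (mono p.1 p.2) c)) k (k - 2 * s))) := by
  classical
  unfold Rigid at h
  push Not at h
  obtain ⟨d, σ, hC, hns⟩ := h
  have hinv : ∀ x ∈ C, mono d σ x ∈ C := by
    intro x hx
    rw [← hC]
    exact mem_map_of_mem hx
  by_cases hbig : ∀ c : F, 3 * r ≤ (SS d σ c).card
  · right; right
    refine ⟨(d, σ), fun c => ker_le d σ c r (hbig c), ?_⟩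
    by_cases hY : ∀ c : F, finrank F (C ⊓ LinearMap.ker (Sh (mono d σ) c) : Submodule F (Fin n → F)) < k - 2 * s
    · left
      exact mem_Y.2 ⟨hk, hinv, hY⟩
    · right
      push Not at hY
      obtain ⟨c, hc⟩ := hY
      exact ⟨c, mem_X.2 ⟨hk, hc⟩⟩
  · push Not at hbig
    obtain ⟨c, hc⟩ := hbig
    by_cases hE : C ⊓ Esup (SS d σ c) = ⊥
    · right; left
      have hfix : ∀ x ∈ C, ∀ i, (d i : F) * x (σ⁻¹ i) = c * x i := by
        intro x hx i
        have h1 : mono d σ x - c • x ∈ C ⊓ Esup (SS d σ c) := by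
          rw [Submodule.mem_inf]
          refine ⟨C.sub_mem (hinv x hx) (C.smul_mem c hx), ?_⟩
          intro j hj
          rw [mem_SS, not_not] at hj
          have h2 : σ⁻¹ j = j := by rw [Equiv.Perm.inv_eq_iff_eq]; exact hj.1.symm
          rw [Pi.sub_apply, mono_apply, Pi.smul_apply, smul_eq_mul, h2, hj.2, sub_self]
        rw [hE, mem_bot] at h1
        have := congrFun h1 i
        rw [Pi.sub_apply, mono_apply, Pi.smul_apply, smul_eq_mul, Pi.zero_apply] at this
        exact sub_eq_zero.1 this
      have hne : (SS d σ c).Nonempty := by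
        by_contra hemp
        rw [not_nonempty_iff_eq_empty] at hemp
        have hall : ∀ i, σ i = i ∧ (d i : F) = c := by
          intro i
          by_contra h1
          have := mem_SS.2 h1
          rw [hemp] at this
          simp at this
        rcases Nat.eq_zero_or_pos n with h0 | h0
        · subst h0
          apply hns 1
          ext x i
          exact i.elim0
        · apply hns (d ⟨0, h0⟩)
          apply LinearMap.ext
          intro x
          funext i
          have h2 : σ⁻¹ i = i := by rw [Equiv.Perm.inv_eq_iff_eq]; exact (hall i).1.symm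
          rw [mono_apply, h2, (hall i).2, LinearMap.smul_apply, LinearMap.id_apply, Pi.smul_apply,
            smul_eq_mul, (hall ⟨0, h0⟩).2]
      obtain ⟨i, hi⟩ := hne
      rw [mem_SS] at hi
      refine ⟨((σ⁻¹ i, i), ((d i : F), c)), ?_, ?_⟩
      · intro h0
        by_cases hσ : σ i = i
        · have h2 : σ⁻¹ i = i := by rw [Equiv.Perm.inv_eq_iff_eq]; exact hσ.symm
          have h3 : (d i : F) ≠ c := fun h => hi ⟨hσ, h⟩
          have h4 := congrArg (fun f : (Fin n → F) →ₗ[F] F => f (Pi.single i 1)) h0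
          simp only [fn_apply, h2, Pi.single_eq_same, mul_one, LinearMap.zero_apply] at h4
          exact h3 (sub_eq_zero.1 h4)
        · have h2 : σ⁻¹ i ≠ i := by
            intro h; rw [Equiv.Perm.inv_eq_iff_eq] at h; exact hσ h.symm
          have h4 := congrArg (fun f : (Fin n → F) →ₗ[F] F => f (Pi.single (σ⁻¹ i) 1)) h0
          simp only [fn_apply, Pi.single_eq_same, mul_one, LinearMap.zero_apply,
            Pi.single_eq_of_ne h2.symm, mul_zero, sub_zero] at h4
          exact (Units.ne_zero (d i)) h4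
      · rw [mem_X]
        refine ⟨hk, ?_⟩
        have : C ⊓ LinearMap.ker (fn ((σ⁻¹ i, i), ((d i : F), c))) = C := by
          rw [inf_eq_left]
          intro x hx
          rw [LinearMap.mem_ker, fn_apply]
          exact sub_eq_zero.2 (hfix x hx i)
        rw [this, hk]
    · left
      obtain ⟨S, hS1, hS2⟩ := exists_subsuperset_card_eq (subset_univ (SS d σ c))
        (show (SS d σ c).card ≤ w by omega) (by rw [card_univ, Fintype.card_fin]; exact hwn)
      refine ⟨S, mem_powersetCard.2 ⟨subset_univ _, hS2.2⟩, mem_X.2 ⟨hk, ?_⟩⟩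
      rw [Nat.one_le_iff_ne_zero]
      intro h0
      rw [Submodule.finrank_eq_zero] at h0
      apply hE
      rw [eq_bot_iff] at h0 ⊢
      refine le_trans (inf_le_inf_left C ?_) h0
      intro x hx i hi
      exact hx i fun h => hi (hS1 h)

end Pool.Agent.H313RC
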