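import Pool.Agent.H313RC.Mono

set_option autoImplicit false
set_option linter.unusedSectionVars false

open Module Submodule Finset

namespace Pool.Agent.H313RC

variable {F : Type} [Field F] [Fintype F] {n : ℕ}

lemma to_real {a b c N : ℕ} (hb : 0 < b) (h : a * b ≤ c * N) : (a : ℝ) ≤ (c : ℝ) / b * N := by
  have hb' : (0 : ℝ) < b := by exact_mod_cast hb
  rw [div_mul_eq_mul_div, le_div_iff₀ hb']
  exact_mod_cast h

lemma fr : finrank F (Fin n → F) = n := by
  rw [Module.finrank_fintype_fun_eq_card, Fintype.card_fin]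

lemma partA (S : Finset (Fin n)) (k : ℕ) (h1 : 1 ≤ k) (hkn : k ≤ n) :
    ((X (Esup S : Submodule F (Fin n → F)) k 1).card : ℝ) ≤
      ((Fintype.card F ^ S.card : ℕ) : ℝ) / ((Fintype.card F ^ (n - k) : ℕ) : ℝ) *
        (A (⊥ : Submodule F (Fin n → F)) k).card := by
  have hq := one_lt_q (F := F)
  have h := X_le (Esup S : Submodule F (Fin n → F)) k 1 h1 (by rw [fr]; exact hkn)
  rw [fr, pow_one, Nat.mul_one, Nat.sub_self, Nat.mul_zero, pow_zero, Nat.mul_one, Nat.one_mul] at h
  apply to_real (Nat.pow_pos (by omega))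
  calc (X (Esup S : Submodule F (Fin n → F)) k 1).card * Fintype.card F ^ (n - k)
      ≤ (X (Esup S : Submodule F (Fin n → F)) k 1).card * (Fintype.card F - 1) * Fintype.card F ^ (n - k) := by
        apply Nat.mul_le_mul_right
        exact Nat.le_mul_of_pos_right _ (by omega)
    _ ≤ _ := h
    _ ≤ _ := Nat.mul_le_mul_right _ (Nat.pow_le_pow_right (by omega) (finrank_Esup S))

lemma partB (p : (Fin n × Fin n) × (F × F)) (hp : fn p ≠ 0) (k : ℕ) (h1 : 1 ≤ k) (hkn : k ≤ n)
    (hq3 : 3 ≤ Fintype.card F) :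
    ((X (LinearMap.ker (fn p)) k k).card : ℝ) ≤
      1 / (((Fintype.card F - 1) ^ k : ℕ) : ℝ) * (A (⊥ : Submodule F (Fin n → F)) k).card := by
  have h := X_le (LinearMap.ker (fn p)) k k le_rfl (by rw [fr]; exact hkn)
  rw [fr, finrank_ker_fn _ hp] at h
  have := @to_real (X (LinearMap.ker (fn p)) k k).card ((Fintype.card F - 1) ^ k) 1
    (A (⊥ : Submodule F (Fin n → F)) k).card (Nat.pow_pos (by omega)) ?_
  · simpa using this
  · have hpos : 0 < Fintype.card F ^ ((n - 1) * k) := Nat.pow_pos (by omega)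
    apply Nat.le_of_mul_le_mul_right _ hpos
    have e : (n - 1) * k = k * (k - 1) + k * (n - k) := by
      obtain ⟨a, rfl⟩ : ∃ a, k = a + 1 := ⟨k - 1, by omega⟩
      obtain ⟨b, rfl⟩ : ∃ b, n = a + 1 + b := ⟨n - (a + 1), by omega⟩
      have e1 : a + 1 + b - 1 = a + b := by omega
      have e2 : a + 1 - 1 = a := by omega
      have e3 : a + 1 + b - (a + 1) = b := by omega
      rw [e1, e2, e3]; ring
    calc (X (LinearMap.ker (fn p)) k k).card * (Fintype.card F - 1) ^ k * Fintype.card F ^ ((n - 1) * k)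
        = (X (LinearMap.ker (fn p)) k k).card * ((Fintype.card F - 1) ^ k * Fintype.card F ^ (k * (k - 1))) *
            Fintype.card F ^ (k * (n - k)) := by rw [e, pow_add]; ring
      _ ≤ _ := h
      _ = _ := by ring

lemma partC1 (M : (Fin n → F) →ₗ[F] (Fin n → F)) (k s : ℕ) (hsk : 2 * s + 1 ≤ k) (hkn : k ≤ n) :
    ((Y M k s).card : ℝ) ≤
      ((2 ^ s : ℕ) : ℝ) / ((Fintype.card F ^ (s * (n - k)) : ℕ) : ℝ) *
        (A (⊥ : Submodule F (Fin n → F)) k).card := by
  have hq := one_lt_q (F := F)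
  have h := Y_le M k s hsk (by rw [fr]; exact hkn)
  rw [fr] at h
  exact to_real (Nat.pow_pos (by omega)) h

lemma partC2 (E : Submodule F (Fin n → F)) (k s : ℕ) (hsk : 2 * s + 1 ≤ k) (hkn : k ≤ n)
    (hE : finrank F E ≤ n - (4 * s + 2)) (hn : 4 * s + 2 ≤ n) :
    ((X E k (k - 2 * s)).card : ℝ) ≤
      1 / ((Fintype.card F ^ ((k - 2 * s) * (2 * s + 1)) : ℕ) : ℝ) *
        (A (⊥ : Submodule F (Fin n → F)) k).card := by
  have hq := one_lt_q (F := F)
  have h := X_le E k (k - 2 * s) (by omega) (by rw [fr]; exact hkn)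
  rw [fr] at h
  have := @to_real (X E k (k - 2 * s)).card (Fintype.card F ^ ((k - 2 * s) * (2 * s + 1))) 1
    (A (⊥ : Submodule F (Fin n → F)) k).card (Nat.pow_pos (by omega)) ?_
  · simpa using this
  · set j := k - 2 * s with hj
    have hpos : 0 < Fintype.card F ^ ((n - (4 * s + 2)) * j) := Nat.pow_pos (by omega)
    apply Nat.le_of_mul_le_mul_right _ hpos
    have e : j * (2 * s + 1) + (n - (4 * s + 2)) * j = j * (j - 1) + j * (n - k) := by
      obtain ⟨a, ha⟩ : ∃ a, n = 4 * s + 2 + a := ⟨n - (4 * s + 2), by omega⟩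
      have e1 : n - (4 * s + 2) = a := by omega
      have e2 : (j - 1) + (n - k) = 2 * s + 1 + a := by omega
      rw [e1, ← Nat.mul_add, e2]; ring
    calc (X E k j).card * Fintype.card F ^ (j * (2 * s + 1)) * Fintype.card F ^ ((n - (4 * s + 2)) * j)
        = (X E k j).card * (1 * Fintype.card F ^ (j * (j - 1))) * Fintype.card F ^ (j * (n - k)) := by
          rw [mul_assoc, ← pow_add, e, pow_add]; ring
      _ ≤ (X E k j).card * ((Fintype.card F - 1) ^ j * Fintype.card F ^ (j * (j - 1))) * Fintype.card F ^ (j * (n - k)) := by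
          apply Nat.mul_le_mul_right
          apply Nat.mul_le_mul_left
          apply Nat.mul_le_mul_right
          exact Nat.one_le_pow _ _ (by omega)
      _ ≤ Fintype.card F ^ (finrank F E * j) * (A (⊥ : Submodule F (Fin n → F)) k).card := h
      _ ≤ 1 * (A (⊥ : Submodule F (Fin n → F)) k).card * Fintype.card F ^ ((n - (4 * s + 2)) * j) := by
          rw [one_mul, mul_comm]
          apply Nat.mul_le_mul_left
          exact Nat.pow_le_pow_right (by omega) (Nat.mul_le_mul_right _ hE)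

open Classical in
noncomputable def Bad (F : Type) [Field F] [Fintype F] (n k : ℕ) : Finset (Submodule F (Fin n → F)) :=
  univ.filter fun C => finrank F C = k ∧ ¬ Rigid C

/-- the error bound -/
noncomputable def err (q n k s : ℕ) : ℝ :=
  (n : ℝ) ^ (12 * s + 6) * ((q : ℝ) ^ (12 * s + 6) / (q : ℝ) ^ (n - k)) +
  ((n : ℝ) ^ 2 * (q : ℝ) ^ 2) * (1 / ((q : ℝ) - 1) ^ k) +
  ((n : ℝ) ^ n * (q : ℝ) ^ n) * ((2 : ℝ) ^ s / (q : ℝ) ^ (s * (n - k)) +
    q * (1 / (q : ℝ) ^ ((k - 2 * s) * (2 * s + 1))))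

theorem bad_le (k s : ℕ) (hsk : 2 * s + 1 ≤ k) (hkn : k ≤ n) (hn : 12 * s + 6 ≤ n)
    (hq3 : 3 ≤ Fintype.card F) :
    ((Bad F n k).card : ℝ) ≤ err (Fintype.card F) n k s * (A (⊥ : Submodule F (Fin n → F)) k).card := by
  classical
  set q := Fintype.card F with hq
  set N : ℝ := ((A (⊥ : Submodule F (Fin n → F)) k).card : ℝ) with hN
  have hN0 : 0 ≤ N := Nat.cast_nonneg _
  let PA := (powersetCard (12 * s + 6) (univ : Finset (Fin n))).biUnion fun S => X (Esup S : Submodule F (Fin n → F)) k 1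
  let PB := (univ.filter fun p : (Fin n × Fin n) × (F × F) => fn p ≠ 0).biUnion fun p => X (LinearMap.ker (fn p)) k k
  let PC := (univ.filter fun p : (Fin n → Fˣ) × Equiv.Perm (Fin n) =>
      ∀ c : F, finrank F (LinearMap.ker (Sh (mono p.1 p.2) c)) ≤ n - (4 * s + 2)).biUnion fun p =>
        Y (mono p.1 p.2) k s ∪ (univ : Finset F).biUnion fun c => X (LinearMap.ker (Sh (mono p.1 p.2) c)) k (k - 2 * s)
  have hcov : Bad F n k ⊆ PA ∪ (PB ∪ PC) := by
    intro C hC
    rw [Bad, mem_filter] at hC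
    rw [mem_union, mem_union]
    rcases cover C k s (12 * s + 6) (4 * s + 2) hC.2.1 hn (by ring) hC.2.2 with h | h | h
    · left
      obtain ⟨S, h1, h2⟩ := h
      exact mem_biUnion.2 ⟨S, h1, h2⟩
    · right; left
      obtain ⟨p, h1, h2⟩ := h
      exact mem_biUnion.2 ⟨p, mem_filter.2 ⟨mem_univ _, h1⟩, h2⟩
    · right; right
      obtain ⟨p, h1, h2⟩ := h
      refine mem_biUnion.2 ⟨p, mem_filter.2 ⟨mem_univ _, h1⟩, ?_⟩
      rcases h2 with h2 | ⟨c, h2⟩
      · exact mem_union_left _ h2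
      · exact mem_union_right _ (mem_biUnion.2 ⟨c, mem_univ _, h2⟩)
  have h0 : ((Bad F n k).card : ℝ) ≤ (PA.card : ℝ) + ((PB.card : ℝ) + (PC.card : ℝ)) := by
    have := (card_le_card hcov).trans ((card_union_le _ _).trans (Nat.add_le_add_left (card_union_le _ _) _))
    exact_mod_cast this
  have hqc : ((q - 1 : ℕ) : ℝ) = (q : ℝ) - 1 := by
    rw [Nat.cast_sub (by omega)]; simp
  have hA : (PA.card : ℝ) ≤ ((n : ℝ) ^ (12 * s + 6) * ((q : ℝ) ^ (12 * s + 6) / (q : ℝ) ^ (n - k))) * N := by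
    have h1 : (PA.card : ℝ) ≤ ∑ S ∈ powersetCard (12 * s + 6) (univ : Finset (Fin n)),
        ((X (Esup S : Submodule F (Fin n → F)) k 1).card : ℝ) := by
      exact_mod_cast card_biUnion_le
    refine h1.trans ?_
    have h2 : ∀ S ∈ powersetCard (12 * s + 6) (univ : Finset (Fin n)),
        ((X (Esup S : Submodule F (Fin n → F)) k 1).card : ℝ) ≤ ((q : ℝ) ^ (12 * s + 6) / (q : ℝ) ^ (n - k)) * N := by
      intro S hS
      have := partA S k (by omega) hkn (F := F)
      rw [(mem_powersetCard.1 hS).2] at this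
      push_cast at this
      exact this
    refine (sum_le_sum h2).trans ?_
    rw [sum_const, card_powersetCard, card_univ, Fintype.card_fin, nsmul_eq_mul, ← mul_assoc]
    apply mul_le_mul_of_nonneg_right _ hN0
    apply mul_le_mul_of_nonneg_right _ (by positivity)
    exact_mod_cast Nat.choose_le_pow n (12 * s + 6)
  have hB : (PB.card : ℝ) ≤ (((n : ℝ) ^ 2 * (q : ℝ) ^ 2) * (1 / ((q : ℝ) - 1) ^ k)) * N := by
    have h1 : (PB.card : ℝ) ≤ ∑ p ∈ (univ.filter fun p : (Fin n × Fin n) × (F × F) => fn p ≠ 0),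
        ((X (LinearMap.ker (fn p)) k k).card : ℝ) := by
      exact_mod_cast card_biUnion_le
    refine h1.trans ?_
    have h2 : ∀ p ∈ (univ.filter fun p : (Fin n × Fin n) × (F × F) => fn p ≠ 0),
        ((X (LinearMap.ker (fn p)) k k).card : ℝ) ≤ (1 / ((q : ℝ) - 1) ^ k) * N := by
      intro p hp
      have := partB p (mem_filter.1 hp).2 k (by omega) hkn hq3
      rw [Nat.cast_pow, hqc] at this
      exact this
    refine (sum_le_sum h2).trans ?_
    rw [sum_const, nsmul_eq_mul, ← mul_assoc]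
    apply mul_le_mul_of_nonneg_right _ hN0
    have hq1 : (0 : ℝ) ≤ (q : ℝ) - 1 := by rw [← hqc]; exact Nat.cast_nonneg _
    apply mul_le_mul_of_nonneg_right _ (by positivity)
    have h3 : (univ.filter fun p : (Fin n × Fin n) × (F × F) => fn p ≠ 0).card ≤ n ^ 2 * q ^ 2 := by
      refine (card_le_univ _).trans ?_
      rw [Fintype.card_prod, Fintype.card_prod, Fintype.card_prod, Fintype.card_fin, sq, sq]
    exact_mod_cast h3
  have hC : (PC.card : ℝ) ≤ (((n : ℝ) ^ n * (q : ℝ) ^ n) * ((2 : ℝ) ^ s / (q : ℝ) ^ (s * (n - k)) +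
    q * (1 / (q : ℝ) ^ ((k - 2 * s) * (2 * s + 1))))) * N := by
    have h1 : (PC.card : ℝ) ≤ ∑ p ∈ (univ.filter fun p : (Fin n → Fˣ) × Equiv.Perm (Fin n) =>
      ∀ c : F, finrank F (LinearMap.ker (Sh (mono p.1 p.2) c)) ≤ n - (4 * s + 2)),
        ((Y (mono p.1 p.2) k s ∪ (univ : Finset F).biUnion fun c => X (LinearMap.ker (Sh (mono p.1 p.2) c)) k (k - 2 * s)).card : ℝ) := by
      exact_mod_cast card_biUnion_le
    refine h1.trans ?_
    have h2 : ∀ p ∈ (univ.filter fun p : (Fin n → Fˣ) × Equiv.Perm (Fin n) =>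
      ∀ c : F, finrank F (LinearMap.ker (Sh (mono p.1 p.2) c)) ≤ n - (4 * s + 2)),
        ((Y (mono p.1 p.2) k s ∪ (univ : Finset F).biUnion fun c => X (LinearMap.ker (Sh (mono p.1 p.2) c)) k (k - 2 * s)).card : ℝ) ≤
        ((2 : ℝ) ^ s / (q : ℝ) ^ (s * (n - k)) + q * (1 / (q : ℝ) ^ ((k - 2 * s) * (2 * s + 1)))) * N := by
      intro p hp
      have hp2 := (mem_filter.1 hp).2
      have e1 := partC1 (mono p.1 p.2) k s hsk hkn
      push_cast at e1
      have e2 : (((univ : Finset F).biUnion fun c => X (LinearMap.ker (Sh (mono p.1 p.2) c)) k (k - 2 * s)).card : ℝ) ≤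
          q * ((1 / (q : ℝ) ^ ((k - 2 * s) * (2 * s + 1))) * N) := by
        have e3 : (((univ : Finset F).biUnion fun c => X (LinearMap.ker (Sh (mono p.1 p.2) c)) k (k - 2 * s)).card : ℝ) ≤
            ∑ c : F, ((X (LinearMap.ker (Sh (mono p.1 p.2) c)) k (k - 2 * s)).card : ℝ) := by
          exact_mod_cast card_biUnion_le
        refine e3.trans ?_
        have e4 : ∀ c ∈ (univ : Finset F), ((X (LinearMap.ker (Sh (mono p.1 p.2) c)) k (k - 2 * s)).card : ℝ) ≤
            (1 / (q : ℝ) ^ ((k - 2 * s) * (2 * s + 1))) * N := by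
          intro c _
          have := partC2 (LinearMap.ker (Sh (mono p.1 p.2) c)) k s hsk hkn (hp2 c) (by omega)
          push_cast at this
          exact this
        refine (sum_le_sum e4).trans ?_
        rw [sum_const, card_univ, nsmul_eq_mul]
      have e5 : ((Y (mono p.1 p.2) k s ∪ (univ : Finset F).biUnion fun c => X (LinearMap.ker (Sh (mono p.1 p.2) c)) k (k - 2 * s)).card : ℝ) ≤
          ((Y (mono p.1 p.2) k s).card : ℝ) + (((univ : Finset F).biUnion fun c => X (LinearMap.ker (Sh (mono p.1 p.2) c)) k (k - 2 * s)).card : ℝ) := by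
        exact_mod_cast card_union_le _ _
      rw [add_mul, mul_assoc (q : ℝ)]
      exact e5.trans (add_le_add e1 e2)
    refine (sum_le_sum h2).trans ?_
    rw [sum_const, nsmul_eq_mul, ← mul_assoc]
    apply mul_le_mul_of_nonneg_right _ hN0
    apply mul_le_mul_of_nonneg_right _ (by positivity)
    have h3 : (univ.filter fun p : (Fin n → Fˣ) × Equiv.Perm (Fin n) =>
      ∀ c : F, finrank F (LinearMap.ker (Sh (mono p.1 p.2) c)) ≤ n - (4 * s + 2)).card ≤ n ^ n * q ^ n := by
      refine (card_le_univ _).trans ?_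
      rw [Fintype.card_prod, Fintype.card_fun, Fintype.card_fin, Fintype.card_perm, Fintype.card_fin,
        mul_comm]
      apply Nat.mul_le_mul (Nat.factorial_le_pow n)
      apply Nat.pow_le_pow_left
      exact Fintype.card_le_of_injective (fun u : Fˣ => (u : F)) (fun a b h => Units.ext h)
    exact_mod_cast h3
  unfold err
  rw [add_mul, add_mul, add_assoc]
  exact h0.trans (add_le_add hA (add_le_add hB hC))

end Pool.Agent.H313RC
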